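import Mathlib
import Pool.Agent.P.MP_70f35d_an.SLattice
import Pool.Agent.P.MP_70f35d_an.LMain

set_option autoImplicit false
open MeasureTheory Filter Topology

namespace Pool.Agent.Results.MP_70f35d_an.ExactOrder

/-- `Bound d A K`: for every bounded (by `M`) mean-zero degree-0 homogeneous `Ω` on `ℝ^d` and every
weight `w` with `A₂` constant at most `A`, the principal-value rough singular integral satisfies
`‖T_Ω f‖_{L²(w)} ≤ K M ‖f‖_{L²(w)}` for smooth compactly supported `f`. -/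
def Bound (d : ℕ) (A K : ℝ) : Prop :=
  ∀ (Ω : EuclideanSpace ℝ (Fin d) → ℝ) (M : ℝ),
    Measurable Ω →
    (∀ x, |Ω x| ≤ M) →
    (∀ x, ∀ t : ℝ, 0 < t → Ω (t • x) = Ω x) →
    (∫ y in {y : EuclideanSpace ℝ (Fin d) | 1 ≤ ‖y‖ ∧ ‖y‖ ≤ 2}, Ω y) = 0 →
    ∀ (w : EuclideanSpace ℝ (Fin d) → ℝ),
      (∀ x, 0 < w x) →
      (∀ (x : EuclideanSpace ℝ (Fin d)) (r : ℝ), 0 < r →
        IntegrableOn w (Metric.ball x r) ∧
        IntegrableOn (fun y => (w y)⁻¹) (Metric.ball x r) ∧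
        (∫ y in Metric.ball x r, w y) * (∫ y in Metric.ball x r, (w y)⁻¹)
          ≤ A * (volume (Metric.ball x r)).toReal ^ 2) →
      ∀ (f : EuclideanSpace ℝ (Fin d) → ℝ),
        ContDiff ℝ (⊤ : ℕ∞) f → HasCompactSupport f →
        ∀ (T : EuclideanSpace ℝ (Fin d) → ℝ),
          (∀ x, Tendsto
            (fun ε : ℝ => ∫ y in {y : EuclideanSpace ℝ (Fin d) | ε < ‖y‖},
              f (x - y) * Ω y / ‖y‖ ^ d)
            (𝓝[>] 0) (𝓝 (T x))) →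
          ∫⁻ x, ENNReal.ofReal ((T x) ^ 2 * w x)
            ≤ ENNReal.ofReal ((K * M) ^ 2) * ∫⁻ x, ENNReal.ofReal ((f x) ^ 2 * w x)

/-- In dimension `d ≥ 2` the best constant in the weighted bound has exact order `A^{3/2}`. -/
theorem result :
    ∀ d : ℕ, 2 ≤ d → ∃ c C A₀ : ℝ, 0 < c ∧ 0 < C ∧
      (∀ A : ℝ, Bound d A (C * A ^ (3 / 2 : ℝ))) ∧
      ∀ A : ℝ, A₀ ≤ A → ¬ Bound d A (c * A ^ (3 / 2 : ℝ)) := by
  intro d hd
  obtain ⟨C, hC, h⟩ := Pool.Agent.P.MP_70f35d_an.finalS d (by omega)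
  obtain ⟨c, hc, A₀, h'⟩ := Pool.Agent.P.MP_70f35d_an.Low.lower d hd
  refine ⟨c, C, A₀, hc, hC, fun A Ω M h1 h2 h3 h4 w h5 h6 f h7 h8 T h9 => ?_, fun A hA hB => ?_⟩
  · rw [mul_right_comm]
    exact h Ω M h1 h2 h3 h4 w A h5 h6 f h7 h8 T h9
  · obtain ⟨Ω, w, f, T, h1, h2, h3, h4, h5, h6, h7, h8, h9, h10⟩ := h' A hA
    have := hB Ω 1 h1 h2 h3 h4 w h5 h6 f h7 h8 T h9
    rw [mul_one] at this
    exact absurd this h10.not_ge

end Pool.Agent.Results.MP_70f35d_an.ExactOrder
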