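import Mathlib
import Pool.Agent.P.MP_70f35d_an.SLattice

set_option autoImplicit false
open MeasureTheory Filter Topology

namespace Pool.Agent.Results.MP_70f35d_an.SharpThreeHalves

/-- In dimension `d ≥ 2` there is `C` such that for every bounded (by `M`) mean-zero degree-0
homogeneous `Ω` and every `A₂` weight `w` with constant `A`, the principal-value rough singular
integral satisfies `‖T_Ω f‖_{L²(w)} ≤ C M A^{3/2} ‖f‖_{L²(w)}`. -/
theorem result :
    ∀ d : ℕ, 2 ≤ d → ∃ C : ℝ, 0 < C ∧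
      ∀ (Ω : EuclideanSpace ℝ (Fin d) → ℝ) (M : ℝ),
        Measurable Ω →
        (∀ x, |Ω x| ≤ M) →
        (∀ x, ∀ t : ℝ, 0 < t → Ω (t • x) = Ω x) →
        (∫ y in {y : EuclideanSpace ℝ (Fin d) | 1 ≤ ‖y‖ ∧ ‖y‖ ≤ 2}, Ω y) = 0 →
        ∀ (w : EuclideanSpace ℝ (Fin d) → ℝ) (A : ℝ),
          (∀ x, 0 < w x) →
          (∀ (x : EuclideanSpace ℝ (Fin d)) (r : ℝ), 0 < r →
            IntegrableOn w (Metric.ball x r) ∧
            IntegrableOn (fun y => (w y)⁻¹) (Metric.ball x r) ∧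
            (∫ y in Metric.ball x r, w y) * (∫ y in Metric.ball x r, (w y)⁻¹)
              ≤ A * (volume (Metric.ball x r)).toReal ^ 2) →
          ∀ (f : EuclideanSpace ℝ (Fin d) → ℝ),
            ContDiff ℝ (⊤ : ℕ∞) f → HasCompactSupport f →
            ∀ (T : EuclideanSpace ℝ (Fin d) → ℝ),
              (∀ x, Tendsto
                (fun ε : ℝ => ∫ y in {y : EuclideanSpace ℝ (Fin d) | ε < ‖y‖},
                  f (x - y) * Ω y / ‖y‖ ^ d)
                (𝓝[>] 0) (𝓝 (T x))) →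
              ∫⁻ x, ENNReal.ofReal ((T x) ^ 2 * w x)
                ≤ ENNReal.ofReal ((C * M * A ^ (3 / 2 : ℝ)) ^ 2) *
                  ∫⁻ x, ENNReal.ofReal ((f x) ^ 2 * w x) :=
  fun d hd => Pool.Agent.P.MP_70f35d_an.finalS d (by omega)

end Pool.Agent.Results.MP_70f35d_an.SharpThreeHalves
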